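import Pool.Agent.L0h45.VL.Stm

/-! # VL, module V2 (helper83) -/

set_option autoImplicit false

open Finset

namespace Pool.Agent.L0h83.VL

open Pool.Agent.L0h45.AR Pool.Agent.L0h45.VL

/-- integers of one residue class in an interval -/
theorem card_cong (T : Finset ℤ) (h : ℤ) (hh : 0 < h) (R : ℝ) (hR : 0 ≤ R)
    (h1 : ∀ x ∈ T, |(x : ℝ)| ≤ R) (h2 : ∀ x ∈ T, ∀ y ∈ T, h ∣ x - y) :
    (T.card : ℝ) ≤ 2 * R / h + 1 := by
  have hh' : (0 : ℝ) < h := by exact_mod_cast hh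
  rcases T.eq_empty_or_nonempty with rfl | hne
  · simp only [Finset.card_empty, Nat.cast_zero]
    positivity
  · set x0 := T.min' hne with hx0
    have hx0m : x0 ∈ T := T.min'_mem hne
    have hle : ∀ x ∈ T, x0 ≤ x := fun x hx => T.min'_le x hx
    have hsub : T.card ≤ (Finset.Icc (0 : ℤ) ⌊2 * R / h⌋).card := by
      refine Finset.card_le_card_of_injOn (fun x => (x - x0) / h) ?_ ?_
      · intro x hx
        have hx' : x ∈ T := hx
        simp only [Finset.coe_Icc, Set.mem_Icc]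
        refine ⟨Int.ediv_nonneg (by linarith [hle x hx']) hh.le, ?_⟩
        rw [Int.le_floor, le_div_iff₀ hh']
        have e : (((x - x0) / h : ℤ) : ℝ) * h = (x : ℝ) - x0 := by
          have := Int.ediv_mul_cancel (h2 x hx' x0 hx0m)
          exact_mod_cast this
        rw [e]
        have a1 := (abs_le.1 (h1 x hx')).2
        have a2 := (abs_le.1 (h1 x0 hx0m)).1
        linarith
      · intro x hx y hy hxy
        have hx' : x ∈ T := hx
        have hy' : y ∈ T := hy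
        have e1 := Int.ediv_mul_cancel (h2 x hx' x0 hx0m)
        have e2 := Int.ediv_mul_cancel (h2 y hy' x0 hx0m)
        dsimp only at hxy
        rw [hxy, e2] at e1
        linarith
    rw [Int.card_Icc] at hsub
    have h3 : (0 : ℤ) ≤ ⌊2 * R / h⌋ := Int.floor_nonneg.2 (by positivity)
    have h4 : ((⌊2 * R / (h : ℝ)⌋ + 1 - 0).toNat : ℤ) = ⌊2 * R / (h : ℝ)⌋ + 1 := by
      rw [sub_zero, Int.toNat_of_nonneg (by linarith)]
    have h5 : ((⌊2 * R / (h : ℝ)⌋ + 1 - 0).toNat : ℝ) = ⌊2 * R / (h : ℝ)⌋ + 1 := by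
      exact_mod_cast h4
    calc (T.card : ℝ) ≤ ((⌊2 * R / (h : ℝ)⌋ + 1 - 0).toNat : ℝ) := by exact_mod_cast hsub
      _ = ⌊2 * R / (h : ℝ)⌋ + 1 := h5
      _ ≤ _ := by linarith [Int.floor_le (2 * R / (h : ℝ))]

/-- the solutions of `u x = v y + m` in a box -/
theorem card_lin (S : Finset (ℤ × ℤ)) (u v : ℤ) (hu : u ≠ 0) (R : ℝ) (hR : 0 ≤ R)
    (h1 : ∀ z ∈ S, |(z.1 : ℝ)| ≤ R)
    (h2 : ∀ z ∈ S, ∀ w ∈ S, u * (z.2 - w.2) = v * (z.1 - w.1)) :
    (S.card : ℝ) ≤ 2 * R * (Int.gcd u v : ℝ) / |(u : ℝ)| + 1 := by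
  classical
  have hg0 : 0 < Int.gcd u v := Int.gcd_pos_of_ne_zero_left v hu
  have hgz : (0 : ℤ) < (Int.gcd u v : ℤ) := by exact_mod_cast hg0
  obtain ⟨u', hu'⟩ := Int.gcd_dvd_left u v
  obtain ⟨v', hv'⟩ := Int.gcd_dvd_right u v
  have hcop : IsCoprime u' v' := by
    rw [Int.isCoprime_iff_gcd_eq_one]
    have h3 := Int.gcd_mul_left (Int.gcd u v : ℤ) u' v'
    rw [← hu', ← hv', Int.natAbs_natCast] at h3
    exact Nat.eq_of_mul_eq_mul_left hg0 (by rw [← h3, mul_one])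
  have hu'0 : u' ≠ 0 := by
    rintro rfl
    exact hu (by rw [hu', mul_zero])
  have hkey : ∀ z ∈ S, ∀ w ∈ S, u' * (z.2 - w.2) = v' * (z.1 - w.1) := by
    intro z hz w hw
    have h3 := h2 z hz w hw
    have h4 : (Int.gcd u v : ℤ) * (u' * (z.2 - w.2)) = (Int.gcd u v : ℤ) * (v' * (z.1 - w.1)) := by
      rw [← mul_assoc, ← mul_assoc, ← hu', ← hv']
      exact h3
    exact mul_left_cancel₀ hgz.ne' h4
  have hinj : Set.InjOn Prod.fst (S : Set (ℤ × ℤ)) := by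
    intro z hz w hw hzw
    have h3 := h2 z hz w hw
    rw [hzw, sub_self, mul_zero] at h3
    have h4 : z.2 - w.2 = 0 := (mul_eq_zero.1 h3).resolve_left hu
    exact Prod.ext hzw (by linarith)
  rw [← Finset.card_image_of_injOn hinj]
  have h5 := card_cong (S.image Prod.fst) |u'| (abs_pos.2 hu'0) R hR ?_ ?_
  · refine h5.trans (le_of_eq ?_)
    have e1 : |(u : ℝ)| = (Int.gcd u v : ℝ) * |(u' : ℝ)| := by
      have e2 : (u : ℝ) = ((Int.gcd u v : ℤ) : ℝ) * (u' : ℝ) := by exact_mod_cast hu'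
      rw [e2, abs_mul, abs_of_nonneg (by positivity)]
      push_cast
      rfl
    have h6 : (0 : ℝ) < (Int.gcd u v : ℝ) := by exact_mod_cast hg0
    have h7 : (0 : ℝ) < |(u' : ℝ)| := abs_pos.2 (by exact_mod_cast hu'0)
    rw [e1, Int.cast_abs]
    field_simp
  · intro x hx
    obtain ⟨z, hz, rfl⟩ := Finset.mem_image.1 hx
    exact h1 z hz
  · intro x hx y hy
    obtain ⟨z, hz, rfl⟩ := Finset.mem_image.1 hx
    obtain ⟨w, hw, rfl⟩ := Finset.mem_image.1 hy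
    rw [abs_dvd]
    exact hcop.dvd_of_dvd_mul_left ⟨_, (hkey z hz w hw).symm⟩

/-- the minimum is at most the geometric mean -/
theorem geo {n x y : ℝ} (hn : 0 ≤ n) (h1 : n ≤ x) (h2 : n ≤ y) : n ≤ √(x * y) := by
  refine Real.le_sqrt_of_sq_le ?_
  nlinarith

theorem v2 : S_V2 := by
  intro j L a b m ha hb haL hbL S hS
  have ha' : (0 : ℝ) < |(a : ℝ)| := abs_pos.2 (by exact_mod_cast ha)
  have hb' : (0 : ℝ) < |(b : ℝ)| := abs_pos.2 (by exact_mod_cast hb)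
  have h16 : (1 : ℝ) ≤ 16 ^ j := one_le_pow₀ (by norm_num)
  have h4 : (1 : ℝ) ≤ 4 ^ j := one_le_pow₀ (by norm_num)
  have hL : 0 < L := lt_of_lt_of_le (by positivity) haL
  have hu : 4 * a ≠ 0 := by simpa using ha
  have hg0 : 0 < Int.gcd (4 * a) b := Int.gcd_pos_of_ne_zero_left b hu
  have hg1 : (1 : ℝ) ≤ (Int.gcd (4 * a) b : ℝ) := by exact_mod_cast hg0
  set g : ℝ := (Int.gcd (4 * a) b : ℝ) with hg
  have key : ∀ z ∈ S, ∀ w ∈ S, 4 * a * (z.2 - w.2) = b * (z.1 - w.1) := by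
    intro z hz w hw
    have e1 := (hS z hz).1
    have e2 := (hS w hw).1
    have e3 : 3 * (4 * a * (z.2 - w.2)) = 3 * (b * (z.1 - w.1)) := by linarith
    exact mul_left_cancel₀ (by norm_num) e3
  have A1 := card_lin S (4 * a) b hu (L * 4 ^ j) (by positivity) (fun z hz => (hS z hz).2.1) key
  have A2 := card_lin (S.map ⟨Prod.swap, Prod.swap_injective⟩) b (4 * a) hb (L * 16 ^ j)
    (by positivity) ?_ ?_
  · rw [Finset.card_map, Int.gcd_comm, ← hg] at A2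
    rw [← hg] at A1
    have B1 : (S.card : ℝ) ≤ 3 * g * (L * 4 ^ j) / |(a : ℝ)| := by
      have e1 : |((4 * a : ℤ) : ℝ)| = 4 * |(a : ℝ)| := by
        push_cast
        rw [abs_mul, abs_of_pos (by norm_num : (0:ℝ) < 4)]
      rw [e1] at A1
      have e2 : 1 ≤ g * (L * 4 ^ j) / |(a : ℝ)| := by
        rw [le_div_iff₀ ha', one_mul]
        calc |(a : ℝ)| ≤ |(a : ℝ)| * 16 ^ j := le_mul_of_one_le_right ha'.le h16
          _ ≤ L := haL
          _ ≤ L * 4 ^ j := le_mul_of_one_le_right hL.le h4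
          _ ≤ _ := le_mul_of_one_le_left (by positivity) hg1
      have e3 : 2 * (L * 4 ^ j) * g / (4 * |(a : ℝ)|) = 1 / 2 * (g * (L * 4 ^ j) / |(a : ℝ)|) := by
        field_simp
        norm_num
      have e4 : 3 * g * (L * 4 ^ j) / |(a : ℝ)| = 3 * (g * (L * 4 ^ j) / |(a : ℝ)|) := by ring
      rw [e3] at A1
      rw [e4]
      linarith
    have B2 : (S.card : ℝ) ≤ 3 * g * (L * 16 ^ j) / |(b : ℝ)| := by
      have e2 : 1 ≤ g * (L * 16 ^ j) / |(b : ℝ)| := by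
        rw [le_div_iff₀ hb', one_mul]
        calc |(b : ℝ)| ≤ |(b : ℝ)| * 4 ^ j := le_mul_of_one_le_right hb'.le h4
          _ ≤ L := hbL
          _ ≤ L * 16 ^ j := le_mul_of_one_le_right hL.le h16
          _ ≤ _ := le_mul_of_one_le_left (by positivity) hg1
      have e3 : 2 * (L * 16 ^ j) * g / |(b : ℝ)| = 2 * (g * (L * 16 ^ j) / |(b : ℝ)|) := by
        ring
      have e4 : 3 * g * (L * 16 ^ j) / |(b : ℝ)| = 3 * (g * (L * 16 ^ j) / |(b : ℝ)|) := by ring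
      rw [e3] at A2
      rw [e4]
      linarith
    refine (geo (Nat.cast_nonneg _) B1 B2).trans (le_of_eq ?_)
    have e5 : 3 * g * (L * 4 ^ j) / |(a : ℝ)| * (3 * g * (L * 16 ^ j) / |(b : ℝ)|) =
        (3 * g * (L * 8 ^ j)) ^ 2 / (|(a : ℝ)| * |(b : ℝ)|) := by
      have e6 : (8 : ℝ) ^ j * 8 ^ j = 4 ^ j * 16 ^ j := by
        rw [← mul_pow, ← mul_pow]; norm_num
      have e7 : (3 * g * (L * 8 ^ j)) ^ 2 = 9 * g ^ 2 * L ^ 2 * (4 ^ j * 16 ^ j) := by
        rw [← e6]; ring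
      rw [e7]
      ring
    rw [e5, Real.sqrt_div (by positivity), Real.sqrt_sq (by positivity)]
    ring
  · intro z hz
    obtain ⟨w, hw, rfl⟩ := Finset.mem_map.1 hz
    exact (hS w hw).2.2
  · intro z hz w hw
    obtain ⟨z', hz', rfl⟩ := Finset.mem_map.1 hz
    obtain ⟨w', hw', rfl⟩ := Finset.mem_map.1 hw
    exact (key z' hz' w' hw').symm

end Pool.Agent.L0h83.VL
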